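import Pool.Agent.P.MP_0b9bd1_al.All

set_option autoImplicit false

namespace Pool.Agent.Results.MP_0b9bd1_al.AllFiniteN

/-- One commutative ring that is weakly Lee `n`-coherent for every finite `n` and is not Lee
`n`-coherent for any `n ≥ 2`. -/
theorem result :
    ∃ (R : Type) (_ : CommRing R),
      (∀ (d : ℕ) (I : Ideal R), I.FG →
        CategoryTheory.HasProjectiveDimensionLE (ModuleCat.of R I) d →
        Module.FinitePresentation R I) ∧
      ∃ K : Submodule R (Fin 2 → R), K.FG ∧
        CategoryTheory.HasProjectiveDimensionLE (ModuleCat.of R K) 1 ∧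
        ¬ Module.FinitePresentation R K :=
  Pool.Agent.P.MP_0b9bd1_al.main_all

/-- the negated form of Q1 for each finite `n = d + 1 ≥ 2` -/
theorem negated_form (d : ℕ) (hd : 1 ≤ d) :
    ∃ (R : Type) (_ : CommRing R),
      (∀ I : Ideal R, I.FG → CategoryTheory.HasProjectiveDimensionLE (ModuleCat.of R I) d →
        Module.FinitePresentation R I) ∧
      ∃ K : Submodule R (Fin 2 → R), K.FG ∧
        CategoryTheory.HasProjectiveDimensionLE (ModuleCat.of R K) d ∧
        ¬ Module.FinitePresentation R K := by
  obtain ⟨R, _, h1, K, h2, h3, h4⟩ := result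
  exact ⟨R, inferInstance, h1 d, K, h2,
    CategoryTheory.hasProjectiveDimensionLT_of_ge _ 2 (d + 1) (by omega), h4⟩

end Pool.Agent.Results.MP_0b9bd1_al.AllFiniteN
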