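import Pool.Agent.P.MP_0b9bd1_al.LocA
import Pool.Agent.P.MP_0b9bd1_al.LocB

set_option autoImplicit false

namespace Pool.Agent.Results.MP_0b9bd1_al.Local

/-- For commutative local rings and n = d + 1, weakly Lee n-coherent implies Lee n-coherent
exactly when d ≤ 1. -/
theorem result (d : ℕ) :
    (∀ (R : Type) [CommRing R] [IsLocalRing R],
      (∀ I : Ideal R, I.FG → CategoryTheory.HasProjectiveDimensionLE (ModuleCat.of R I) d →
        Module.FinitePresentation R I) →
      ∀ (m : ℕ) (K : Submodule R (Fin m → R)), K.FG →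
        CategoryTheory.HasProjectiveDimensionLE (ModuleCat.of R K) d →
        Module.FinitePresentation R K) ↔ d ≤ 1 := by
  refine ⟨fun h => not_lt.1 fun hd => ?_, fun hd R _ _ _ m K hK hpd => ?_⟩
  · obtain ⟨R, _, _, h1, K, h2, h3, h4⟩ := Pool.Agent.P.MP_0b9bd1_al.Loc.main_local
    exact h4 (h R (h1 d) 2 K h2
      (CategoryTheory.hasProjectiveDimensionLT_of_ge _ 3 (d + 1) (by omega)))
  · have : Module.Finite R K := Module.Finite.iff_fg.2 hK
    exact Pool.Agent.P.MP_0b9bd1_al.Loc.fp_of_pd_le_one K
      (CategoryTheory.hasProjectiveDimensionLT_of_ge _ (d + 1) 2 (by omega))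

/-- The negated form of Q1 with `n = 3`, from `result`. -/
theorem negated_form :
    ∃ (R : Type) (_ : CommRing R),
      (∀ I : Ideal R, I.FG → CategoryTheory.HasProjectiveDimensionLE (ModuleCat.of R I) 2 →
        Module.FinitePresentation R I) ∧
      ∃ (m : ℕ) (K : Submodule R (Fin m → R)), K.FG ∧
        CategoryTheory.HasProjectiveDimensionLE (ModuleCat.of R K) 2 ∧
        ¬ Module.FinitePresentation R K := by
  have h := (result 2).not.2 (by omega)
  push Not at h
  obtain ⟨R, _, _, h1, h2⟩ := h
  exact ⟨R, inferInstance, h1, h2⟩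

/-- One local ring serves for all finite `n ≥ 3`. -/
theorem one_ring :
    ∃ (R : Type) (_ : CommRing R) (_ : IsLocalRing R),
      (∀ (d : ℕ) (I : Ideal R), I.FG →
        CategoryTheory.HasProjectiveDimensionLE (ModuleCat.of R I) d →
        Module.FinitePresentation R I) ∧
      ∃ K : Submodule R (Fin 2 → R), K.FG ∧
        CategoryTheory.HasProjectiveDimensionLE (ModuleCat.of R K) 2 ∧
        ¬ Module.FinitePresentation R K :=
  Pool.Agent.P.MP_0b9bd1_al.Loc.main_local

end Pool.Agent.Results.MP_0b9bd1_al.Local
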